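import Pool.Agent.W394.BQN.Stm2

set_option autoImplicit false

noncomputable section

namespace Pool.Agent.W161.BQN

open BQ Pool.Agent.W394.BQN

attribute [local instance] MvPolynomial.algebraMvPolynomial

section

variable (C C' : Type) [CommRing C] [CommRing C'] [Algebra C C'] (u : C) (n : ℕ)

/-- the map induced by C → C' -/
def psi : Semi C u n →+* Semi C' (algebraMap C C' u) n :=
  Q.lft C u n (((Q.pr C' (algebraMap C C' u) n).comp MvPolynomial.C).comp (algebraMap C C'))
    (fun i => Q.pr C' (algebraMap C C' u) n (MvPolynomial.X i))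
    (Q.pr_prod C' (algebraMap C C' u) n)

theorem psi_pr (F : MvPolynomial (Fin (n + 1)) C) :
    psi C C' u n (Q.pr C u n F) =
      Q.pr C' (algebraMap C C' u) n (MvPolynomial.map (algebraMap C C') F) := by
  have h : (psi C C' u n).comp (Q.pr C u n) =
      (Q.pr C' (algebraMap C C' u) n).comp (MvPolynomial.map (algebraMap C C')) := by
    apply MvPolynomial.ringHom_ext
    · intro c
      show psi C C' u n (Q.pr C u n (MvPolynomial.C c)) =
        Q.pr C' (algebraMap C C' u) n (MvPolynomial.map (algebraMap C C') (MvPolynomial.C c))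
      rw [psi, Q.lft_C, MvPolynomial.map_C]
      rfl
    · intro i
      show psi C C' u n (Q.pr C u n (MvPolynomial.X i)) =
        Q.pr C' (algebraMap C C' u) n (MvPolynomial.map (algebraMap C C') (MvPolynomial.X i))
      rw [psi, Q.lft_X, MvPolynomial.map_X]
  exact RingHom.congr_fun h F

/-- the relation -/
def rel : MvPolynomial (Fin (n + 1)) C := ∏ i, MvPolynomial.X i - MvPolynomial.C u

theorem map_rel : MvPolynomial.map (algebraMap C C') (rel C u n) =
    rel C' (algebraMap C C' u) n := by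
  unfold rel
  rw [map_sub, map_prod, MvPolynomial.map_C]
  simp only [MvPolynomial.map_X]

theorem pr_eq_zero (F : MvPolynomial (Fin (n + 1)) C) : Q.pr C u n F = 0 ↔ rel C u n ∣ F := by
  unfold Q.pr
  rw [Ideal.Quotient.eq_zero_iff_mem, Ideal.mem_span_singleton]
  rfl

variable (M : Submonoid C)

/-- the constants -/
def NN : Submonoid (Semi C u n) :=
  M.map ((Q.pr C u n).comp (MvPolynomial.C (σ := Fin (n + 1)))).toMonoidHom

theorem mem_NN {m : C} (hm : m ∈ M) : Q.pr C u n (MvPolynomial.C m) ∈ NN C u n M :=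
  ⟨m, hm, rfl⟩

variable [IsLocalization M C']

theorem surj' (G' : MvPolynomial (Fin (n + 1)) C') : ∃ m ∈ M, ∃ G : MvPolynomial (Fin (n + 1)) C,
    MvPolynomial.map (algebraMap C C') (MvPolynomial.C m) * G' =
      MvPolynomial.map (algebraMap C C') G := by
  obtain ⟨⟨G, m⟩, h⟩ := IsLocalization.surj (M.map (MvPolynomial.C (σ := Fin (n + 1)))) G'
  obtain ⟨m0, hm0, hm⟩ := m.2
  refine ⟨m0, hm0, G, ?_⟩
  rw [mul_comm]
  have e : (m : MvPolynomial (Fin (n + 1)) C) = MvPolynomial.C m0 := hm.symm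
  rw [← e]
  exact h

theorem eq' (F G : MvPolynomial (Fin (n + 1)) C)
    (h : MvPolynomial.map (algebraMap C C') F = MvPolynomial.map (algebraMap C C') G) :
    ∃ m ∈ M, MvPolynomial.C m * F = MvPolynomial.C m * G := by
  obtain ⟨m, hm⟩ := IsLocalization.exists_of_eq (M := M.map (MvPolynomial.C (σ := Fin (n + 1))))
    (S := MvPolynomial (Fin (n + 1)) C') (x := F) (y := G) h
  obtain ⟨m0, hm0, hm1⟩ := m.2
  refine ⟨m0, hm0, ?_⟩
  have e : (m : MvPolynomial (Fin (n + 1)) C) = MvPolynomial.C m0 := hm1.symm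
  rw [← e]
  exact hm

theorem cond1 (a : Semi C u n) (h : psi C C' u n a = 0) : ∃ m ∈ NN C u n M, m * a = 0 := by
  obtain ⟨F, rfl⟩ : ∃ F, Q.pr C u n F = a := Ideal.Quotient.mk_surjective a
  rw [psi_pr, pr_eq_zero] at h
  obtain ⟨G', hG'⟩ := h
  obtain ⟨m, hm, G, hG⟩ := surj' C C' n M G'
  have h1 : MvPolynomial.map (algebraMap C C') (MvPolynomial.C m * F) =
      MvPolynomial.map (algebraMap C C') (rel C u n * G) := by
    rw [map_mul, map_mul, hG', ← hG, map_rel]
    ring
  obtain ⟨m', hm', h2⟩ := eq' C C' n M _ _ h1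
  refine ⟨Q.pr C u n (MvPolynomial.C (m' * m)), mem_NN C u n M (M.mul_mem hm' hm), ?_⟩
  rw [← map_mul, pr_eq_zero]
  refine ⟨MvPolynomial.C m' * G, ?_⟩
  rw [MvPolynomial.C_mul, mul_assoc, h2]
  ring

theorem cond2 (b : Semi C' (algebraMap C C' u) n) :
    ∃ m ∈ NN C u n M, ∃ a, psi C C' u n m * b = psi C C' u n a := by
  obtain ⟨G', rfl⟩ : ∃ F, Q.pr C' (algebraMap C C' u) n F = b := Ideal.Quotient.mk_surjective b
  obtain ⟨m, hm, G, hG⟩ := surj' C C' n M G'
  refine ⟨Q.pr C u n (MvPolynomial.C m), mem_NN C u n M hm, Q.pr C u n G, ?_⟩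
  rw [psi_pr, psi_pr, ← map_mul, hG]

end

theorem t_SLC (h : S_GL) : S_SLC := by
  intro C C' _ _ _ M _ u n q _ hq
  obtain ⟨q', hq', e, hN⟩ := (h (Semi C u n) (Semi C' (algebraMap C C' u) n) (psi C C' u n)
    (NN C u n M) (cond1 C C' u n M) (cond2 C C' u n M)).2 q (by
      rintro m ⟨m0, hm0, rfl⟩
      exact hq m0 hm0)
  refine ⟨q', hq', ?_, hN⟩
  intro c
  have h1 : Q.pr C u n (MvPolynomial.C c) ∈ q'.comap (psi C C' u n) ↔
      Q.pr C' (algebraMap C C' u) n (MvPolynomial.C (algebraMap C C' c)) ∈ q' := by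
    rw [Ideal.mem_comap, psi_pr, MvPolynomial.map_C]
  rw [← e] at h1
  exact h1

end Pool.Agent.W161.BQN
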